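import Pool.Agent.H67.AG.T1

/-!
# J1: the formula for the relatively independent self-joining (`MP_c59857_nt`)
-/

set_option autoImplicit false

open MeasureTheory ProbabilityTheory Filter Topology Finset
open scoped Nat ENNReal

namespace Pool.Agent.H61.AG

open Pool.Agent.H67.AG

theorem pf_J1 : T_J1 := by
  intro X mX _ μ _ Z F G hF hG hbF hbG
  obtain ⟨C, hC⟩ := hbF
  obtain ⟨D, hD⟩ := hbG
  have hC0 : 0 ≤ C := by
    obtain ⟨x, -⟩ : (Set.univ : Set X).Nonempty := by
      rw [Set.nonempty_iff_ne_empty]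
      intro h
      have h1 : μ Set.univ = 0 := by rw [h, measure_empty]
      rw [measure_univ] at h1
      exact one_ne_zero h1
    exact le_trans (abs_nonneg _) (hC x)
  have hFi : Integrable F μ := Integrable.of_bound hF.aestronglyMeasurable C
    (Eventually.of_forall fun x => by rw [Real.norm_eq_abs]; exact hC x)
  have hGi : Integrable G μ := Integrable.of_bound hG.aestronglyMeasurable D
    (Eventually.of_forall fun x => by rw [Real.norm_eq_abs]; exact hD x)
  have hFG : Integrable (fun q : X × X => F q.1 * G q.2) (μ ⊗ₘ kap μ Z) := by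
    refine Integrable.of_bound ((hF.comp measurable_fst).mul
      (hG.comp measurable_snd)).aestronglyMeasurable (C * D) (Eventually.of_forall fun q => ?_)
    rw [Real.norm_eq_abs, abs_mul]
    exact mul_le_mul (hC _) (hD _) (abs_nonneg _) hC0
  have h1 : ∫ q, F q.1 * G q.2 ∂(JJ μ Z) = ∫ x, F x * ∫ y, G y ∂(kap μ Z x) ∂μ := by
    unfold JJ
    rw [Measure.integral_compProd hFG]
    refine integral_congr_ae (Eventually.of_forall fun x => ?_)
    exact integral_const_mul (F x) G
  have h2 : (μ[G | Z.1]) =ᵐ[μ] fun x => ∫ y, G y ∂(kap μ Z x) := by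
    have h3 := condExp_ae_eq_integral_condExpKernel (μ := μ) Z.2 hGi
    refine h3.trans (Eventually.of_forall fun x => ?_)
    simp only [kap]
    rw [Kernel.comap_apply, id]
  have h4 : ∫ x, F x * ∫ y, G y ∂(kap μ Z x) ∂μ = ∫ x, F x * (μ[G | Z.1]) x ∂μ := by
    refine integral_congr_ae ?_
    filter_upwards [h2] with x hx
    rw [hx]
  have hbd : ∀ᵐ x ∂μ, |(μ[G | Z.1]) x| ≤ D :=
    ae_bdd_abs_condExp_of_ae_bdd_abs (Eventually.of_forall hD)
  have hm : AEStronglyMeasurable (μ[G | Z.1]) μ :=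
    (stronglyMeasurable_condExp.mono Z.2).aestronglyMeasurable
  have hFm : Integrable (F * (μ[G | Z.1])) μ := by
    refine Integrable.of_bound (hF.aestronglyMeasurable.mul hm) (C * D) ?_
    filter_upwards [hbd] with x hx
    rw [Pi.mul_apply, Real.norm_eq_abs, abs_mul]
    exact mul_le_mul (hC _) hx (abs_nonneg _) hC0
  have h5 : μ[F * (μ[G | Z.1]) | Z.1] =ᵐ[μ] μ[F | Z.1] * (μ[G | Z.1]) :=
    condExp_mul_of_stronglyMeasurable_right stronglyMeasurable_condExp hFm hFi
  rw [h1, h4]
  calc ∫ x, F x * (μ[G | Z.1]) x ∂μ = ∫ x, (F * (μ[G | Z.1])) x ∂μ := rfl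
    _ = ∫ x, (μ[F * (μ[G | Z.1]) | Z.1]) x ∂μ := (integral_condExp Z.2).symm
    _ = ∫ x, (μ[F | Z.1]) x * (μ[G | Z.1]) x ∂μ := integral_congr_ae h5

end Pool.Agent.H61.AG
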