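import Pool.Agent.H67.AG.T4

/-!
# PM: the map permutes the classes approximately (`MP_c59857_nt`)
-/

set_option autoImplicit false

open MeasureTheory ProbabilityTheory Filter Topology Finset
open scoped Nat ENNReal

namespace Pool.Agent.H61.AG

open Pool.Agent.H67.AG

/-- if the square of the classes `A` is nearly contained in the one of the classes `B`, then each
class `A a` is nearly contained in a class `B b` -/
theorem key {X : Type} [MeasurableSpace X] (μ : Measure X) [IsProbabilityMeasure μ] (r : ℕ)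
    (A B : Fin r → Set X) (c₀ ε : ℝ) (hc : 0 < c₀) (hA : ∀ a, MeasurableSet (A a))
    (hB : ∀ a, MeasurableSet (B a)) (hd : Pairwise fun a b => Disjoint (B a) (B b)) (a : Fin r)
    (ha : c₀ ≤ μ.real (A a))
    (h : (μ.prod μ).real ({q | ∃ a, q.1 ∈ A a ∧ q.2 ∈ A a} \ {q | ∃ a, q.1 ∈ B a ∧ q.2 ∈ B a}) ≤ ε) :
    ∃ b, μ.real (A a \ B b) ≤ ε / c₀ := by
  obtain ⟨b, -, hb⟩ := Finset.exists_max_image (Finset.univ : Finset (Fin r))
    (fun b => μ.real (A a ∩ B b)) ⟨a, Finset.mem_univ a⟩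
  refine ⟨b, ?_⟩
  have h1 : A a ×ˢ A a ⊆ ({q : X × X | ∃ a, q.1 ∈ A a ∧ q.2 ∈ A a} \
      {q | ∃ a, q.1 ∈ B a ∧ q.2 ∈ B a}) ∪ ⋃ b, (A a ∩ B b) ×ˢ (A a ∩ B b) := by
    intro q hq
    by_cases hq2 : ∃ a, q.1 ∈ B a ∧ q.2 ∈ B a
    · obtain ⟨b', hb1, hb2⟩ := hq2
      exact Or.inr (Set.mem_iUnion.mpr ⟨b', ⟨hq.1, hb1⟩, ⟨hq.2, hb2⟩⟩)
    · exact Or.inl ⟨⟨a, hq.1, hq.2⟩, hq2⟩
  have h2 : μ.real (A a) * μ.real (A a) ≤ ε + ∑ b, μ.real (A a ∩ B b) * μ.real (A a ∩ B b) := by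
    calc μ.real (A a) * μ.real (A a) = (μ.prod μ).real (A a ×ˢ A a) :=
          (measureReal_prod_prod (A a) (A a)).symm
      _ ≤ (μ.prod μ).real (({q : X × X | ∃ a, q.1 ∈ A a ∧ q.2 ∈ A a} \
          {q | ∃ a, q.1 ∈ B a ∧ q.2 ∈ B a}) ∪ ⋃ b, (A a ∩ B b) ×ˢ (A a ∩ B b)) :=
          measureReal_mono h1
      _ ≤ (μ.prod μ).real ({q : X × X | ∃ a, q.1 ∈ A a ∧ q.2 ∈ A a} \
          {q | ∃ a, q.1 ∈ B a ∧ q.2 ∈ B a}) +
          (μ.prod μ).real (⋃ b, (A a ∩ B b) ×ˢ (A a ∩ B b)) := measureReal_union_le _ _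
      _ ≤ ε + ∑ b, (μ.prod μ).real ((A a ∩ B b) ×ˢ (A a ∩ B b)) :=
          add_le_add h (measureReal_iUnion_fintype_le _)
      _ = ε + ∑ b, μ.real (A a ∩ B b) * μ.real (A a ∩ B b) := by
          congr 1
          exact Finset.sum_congr rfl fun b _ => measureReal_prod_prod _ _
  have h3 : ∑ b, μ.real (A a ∩ B b) ≤ μ.real (A a) := by
    have h4 : μ.real (⋃ b, A a ∩ B b) = ∑ b, μ.real (A a ∩ B b) :=
      measureReal_iUnion_fintype
        (fun i j hij => (hd hij).mono Set.inter_subset_right Set.inter_subset_right)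
        (fun b => (hA a).inter (hB b))
    rw [← h4]
    exact measureReal_mono (Set.iUnion_subset fun b => Set.inter_subset_left)
  have h5 : ∑ b, μ.real (A a ∩ B b) * μ.real (A a ∩ B b) ≤ μ.real (A a ∩ B b) * μ.real (A a) := by
    calc ∑ b', μ.real (A a ∩ B b') * μ.real (A a ∩ B b')
        ≤ ∑ b', μ.real (A a ∩ B b) * μ.real (A a ∩ B b') := by
          refine Finset.sum_le_sum fun b' _ => ?_
          exact mul_le_mul_of_nonneg_right (hb b' (Finset.mem_univ b')) measureReal_nonneg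
      _ = μ.real (A a ∩ B b) * ∑ b', μ.real (A a ∩ B b') := by rw [Finset.mul_sum]
      _ ≤ μ.real (A a ∩ B b) * μ.real (A a) := mul_le_mul_of_nonneg_left h3 measureReal_nonneg
  have h6 : μ.real (A a ∩ B b) + μ.real (A a \ B b) = μ.real (A a) :=
    measureReal_inter_add_sdiff (hB b)
  have h7 : (0 : ℝ) ≤ μ.real (A a \ B b) := measureReal_nonneg
  rw [le_div_iff₀ hc]
  have h8 : μ.real (A a \ B b) * c₀ ≤ μ.real (A a \ B b) * μ.real (A a) :=
    mul_le_mul_of_nonneg_left ha h7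
  nlinarith

/-- iterates of the diagonal map -/
theorem tt_iter {X : Type} [MeasurableSpace X] (T : X ≃ᵐ X) (n : ℕ) (q : X × X) :
    (TT T)^[n] q = (T^[n] q.1, T^[n] q.2) := by
  induction n with
  | zero => rfl
  | succ n ih =>
    rw [Function.iterate_succ_apply', ih, Function.iterate_succ_apply',
      Function.iterate_succ_apply']
    rfl

theorem pf_PM : T_PM := by
  intro X mX μ _ T r C c₀ ε hT hc hε hcε hC hd n hn a
  have hTn : MeasurePreserving (T^[n]) μ μ := hT.iterate n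
  have hSm : ∀ b, MeasurableSet (T^[n] ⁻¹' C b) := fun b => hTn.measurable (hC b).1
  have hSr : ∀ b, μ.real (T^[n] ⁻¹' C b) = μ.real (C b) := fun b =>
    hTn.measureReal_preimage (hC b).1.nullMeasurableSet
  have hSd : Pairwise fun a b => Disjoint (T^[n] ⁻¹' C a) (T^[n] ⁻¹' C b) := fun i j hij =>
    (hd hij).preimage _
  have hE : (TT T)^[n] ⁻¹' {q | ∃ a, q.1 ∈ C a ∧ q.2 ∈ C a} =
      {q | ∃ a, q.1 ∈ T^[n] ⁻¹' C a ∧ q.2 ∈ T^[n] ⁻¹' C a} := by
    ext q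
    simp only [Set.mem_preimage, Set.mem_ofPred_eq, tt_iter]
  rw [hE] at hn
  obtain ⟨b, hb⟩ := key μ r C (fun b => T^[n] ⁻¹' C b) c₀ ε hc (fun a => (hC a).1) hSm hSd a (hC a).2
    (le_trans (measureReal_mono fun q hq => Or.inl hq) hn)
  obtain ⟨a', ha'⟩ := key μ r (fun b => T^[n] ⁻¹' C b) C c₀ ε hc hSm (fun a => (hC a).1) hd b
    (by rw [hSr]; exact (hC b).2) (le_trans (measureReal_mono fun q hq => Or.inr hq) hn)
  have haa : a' = a := by
    by_contra hne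
    have h1 : C a ∩ T^[n] ⁻¹' C b ⊆ T^[n] ⁻¹' C b \ C a' := fun x hx =>
      ⟨hx.2, fun hx' => Set.disjoint_left.mp (hd hne) hx' hx.1⟩
    have h2 := (measureReal_mono h1 (μ := μ)).trans ha'
    have h3 : μ.real (C a ∩ T^[n] ⁻¹' C b) + μ.real (C a \ T^[n] ⁻¹' C b) = μ.real (C a) :=
      measureReal_inter_add_sdiff (hSm b)
    have h4 := (hC a).2
    have h5 : c₀ ≤ 2 * (ε / c₀) := by linarith
    have h6 : c₀ * c₀ ≤ 2 * ε := by
      have h7 := mul_le_mul_of_nonneg_right h5 hc.le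
      have h8 : 2 * (ε / c₀) * c₀ = 2 * ε := by field_simp
      linarith
    nlinarith
  refine ⟨b, ?_⟩
  rw [haa] at ha'
  have h9 : symmDiff (C a) (T^[n] ⁻¹' C b) = (C a \ T^[n] ⁻¹' C b) ∪ (T^[n] ⁻¹' C b \ C a) := rfl
  rw [h9]
  refine (measureReal_union_le _ _).trans ?_
  have h10 : 2 * ε / c₀ = ε / c₀ + ε / c₀ := by ring
  rw [h10]
  exact add_le_add hb ha'

end Pool.Agent.H61.AG
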