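import Pool.Agent.H24.AG.Targets

/-!
# VGE: geometric sums (`MP_c59857_nt`)
-/

set_option autoImplicit false

open MeasureTheory ProbabilityTheory Filter Topology Finset
open scoped Nat

namespace Pool.Agent.H61.AG

open Pool.Agent.H24.AG

theorem norm_ee (x : ℝ) : ‖ee x‖ = 1 := by
  unfold ee
  have h : (2 * Real.pi * Complex.I * (x : ℂ)) = ((2 * Real.pi * x : ℝ) : ℂ) * Complex.I := by
    push_cast
    ring
  rw [h]
  exact Complex.norm_exp_ofReal_mul_I _

theorem ee_mul_nat (x : ℝ) (n : ℕ) : ee (x * n) = ee x ^ n := by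
  unfold ee
  rw [← Complex.exp_nat_mul]
  congr 1
  push_cast
  ring

theorem norm_ee_sub_one (x : ℝ) : ‖ee x - 1‖ = 2 * |Real.sin (Real.pi * x)| := by
  have h1 : ee x = Complex.exp (Complex.I * ((2 * Real.pi * x : ℝ) : ℂ)) := by
    unfold ee
    congr 1
    push_cast
    ring
  rw [h1, Complex.norm_exp_I_mul_ofReal_sub_one]
  have h2 : 2 * Real.pi * x / 2 = Real.pi * x := by ring
  rw [h2, Real.norm_eq_abs, abs_mul, abs_two]

theorem dn_le_sin (x : ℝ) : 2 * dn x ≤ |Real.sin (Real.pi * x)| := by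
  unfold dn
  have h1 : |Real.sin (Real.pi * x)| = |Real.sin (Real.pi * (x - round x))| := by
    have h2 : Real.pi * (x - round x) = Real.pi * x - (round x : ℤ) * Real.pi := by ring
    rw [h2, Real.sin_sub_int_mul_pi, abs_mul, abs_zpow, abs_neg, abs_one, one_zpow, one_mul]
  rw [h1]
  have h3 : |x - round x| ≤ 1 / 2 := abs_sub_round x
  have hpi := Real.pi_pos
  have h4 : |Real.pi * (x - round x)| ≤ Real.pi / 2 := by
    rw [abs_mul, abs_of_pos hpi]
    nlinarith
  have h5 := Real.mul_abs_le_abs_sin h4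
  rw [abs_mul, abs_of_pos hpi] at h5
  have h6 : 2 / Real.pi * (Real.pi * |x - round x|) = 2 * |x - round x| := by
    field_simp
  rw [h6] at h5
  exact h5

theorem mn_nonneg (x M : ℝ) (hM : 0 < M) : 0 ≤ mn M x := by
  unfold mn dn
  split_ifs
  · exact hM.le
  · positivity

theorem pf_VGE : T_VGE := by
  intro x M a b hM hab
  rcases le_or_gt b a with hba | hba
  · rw [Finset.Ioc_eq_empty (not_lt.mpr hba), Finset.sum_empty, norm_zero]
    exact mn_nonneg x M hM
  · by_cases hc : 2 * M * dn x ≤ 1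
    · have h1 : mn M x = M := by
        unfold mn
        rw [if_pos hc]
      rw [h1]
      calc ‖∑ n ∈ Finset.Ioc a b, ee (x * n)‖ ≤ ∑ n ∈ Finset.Ioc a b, ‖ee (x * n)‖ :=
            norm_sum_le _ _
        _ = ∑ n ∈ Finset.Ioc a b, (1 : ℝ) := Finset.sum_congr rfl fun n _ => norm_ee _
        _ = (b : ℝ) - a := by
            rw [Finset.sum_const, Nat.card_Ioc, nsmul_eq_mul, mul_one, Nat.cast_sub hba.le]
        _ ≤ M := hab
    · have h1 : mn M x = 1 / (2 * dn x) := by
        unfold mn
        rw [if_neg hc]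
      have hd : 0 < dn x := by
        by_contra h
        have h0 : dn x ≤ 0 := not_lt.mp h
        apply hc
        nlinarith
      have hs := dn_le_sin x
      have hn : 4 * dn x ≤ ‖ee x - 1‖ := by
        rw [norm_ee_sub_one]
        linarith
      have hne : ee x ≠ 1 := by
        intro h
        rw [h, sub_self, norm_zero] at hn
        linarith
      have h2 : ∑ n ∈ Finset.Ioc a b, ee (x * n) =
          (ee x ^ (b + 1) - ee x ^ (a + 1)) / (ee x - 1) := by
        rw [← geom_sum_Ico hne (Nat.add_le_add_right hba.le 1), Finset.Ico_add_one_add_one_eq_Ioc]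
        exact Finset.sum_congr rfl fun n _ => ee_mul_nat x n
      rw [h1, h2, norm_div]
      have h3 : ‖ee x ^ (b + 1) - ee x ^ (a + 1)‖ ≤ 2 := by
        refine (norm_sub_le _ _).trans ?_
        rw [norm_pow, norm_pow, norm_ee, one_pow, one_pow]
        norm_num
      have hp : 0 < ‖ee x - 1‖ := by linarith
      rw [div_le_div_iff₀ hp (by linarith)]
      nlinarith

end Pool.Agent.H61.AG
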