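import Pool.Agent.H80.AG.Targets9

/-!
# PTO: the points of the symbolic space (`MP_c59857_nt`)
-/

set_option autoImplicit false

open MeasureTheory ProbabilityTheory Filter Topology Finset
open scoped Nat

namespace Pool.Agent.H61.AG

open Pool.Agent.H24.MR (lam dens)
open Pool.Agent.H24.T2 (Pset rel)
open Pool.Agent.H67.AG Pool.Agent.H80.AG

theorem sh_ptO (Q : ℕ) (l : ℕ × ℕ → Lb Q) (n : ℕ) : sh Q (ptO Q l n) = ptO Q l (n + 1) := by
  have h1 : ∀ t : ℤ, (n : ℤ) + (t + 1) = ((n + 1 : ℕ) : ℤ) + t := by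
    intro t
    push_cast
    ring
  have h2 : ((n : ZMod Q) + 1) = ((n + 1 : ℕ) : ZMod Q) := by push_cast; rfl
  refine Prod.ext ?_ (Prod.ext h2 rfl)
  funext t
  change decide (0 ≤ (n : ℤ) + (t + 1) → lam ((n : ℤ) + (t + 1)).toNat = 1) =
    decide (0 ≤ ((n + 1 : ℕ) : ℤ) + t → lam (((n + 1 : ℕ) : ℤ) + t).toNat = 1)
  rw [h1]

theorem sh_iter_ptO (Q : ℕ) (l : ℕ × ℕ → Lb Q) (n j : ℕ) :
    (sh Q)^[j] (ptO Q l n) = ptO Q l (n + j) := by
  induction j with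
  | zero => rfl
  | succ j ih =>
    rw [Function.iterate_succ_apply', ih, sh_ptO]
    rfl

theorem DD_ptO (Q : ℕ) (l : ℕ × ℕ → Lb Q) (n : ℕ) : DD Q (ptO Q l n) = lam n := by
  have h1 : (0 ≤ (n : ℤ) + 0 → lam ((n : ℤ) + 0).toNat = 1) ↔ lam n = 1 := by
    rw [add_zero, Int.toNat_natCast]
    exact ⟨fun h => h (Int.natCast_nonneg n), fun h _ => h⟩
  unfold DD sg ptO
  simp only [decide_eq_true_eq]
  rcases neg_one_pow_eq_or ℝ (ArithmeticFunction.cardFactors n) with h | h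
  · have h2 : lam n = 1 := h
    rw [if_pos (h1.mpr h2), h2]
  · have h2 : lam n = -1 := h
    rw [if_neg, h2]
    intro h3
    have h4 := h1.mp h3
    rw [h2] at h4
    norm_num at h4

theorem sh_iter_fst (Q : ℕ) (ω : Om Q) (m : ℕ) (t : ℤ) : ((sh Q)^[m] ω).1 t = ω.1 (t + m) := by
  induction m generalizing t with
  | zero =>
    rw [Nat.cast_zero, add_zero]
    rfl
  | succ m ih =>
    rw [Function.iterate_succ_apply']
    change ((sh Q)^[m] ω).1 (t + 1) = _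
    have h1 : t + 1 + (m : ℤ) = t + ((m + 1 : ℕ) : ℤ) := by
      push_cast
      ring
    rw [ih, h1]

theorem DD_iter (Q : ℕ) (ω : Om Q) (m : ℕ) : DD Q ((sh Q)^[m] ω) = sg (ω.1 (m : ℤ)) := by
  unfold DD
  rw [sh_iter_fst, zero_add]

theorem pf_PTO : T_PTO := by
  intro Q _ l
  refine ⟨fun n => sh_ptO Q l n, fun n => rfl, fun n j => ?_, fun k β p n b => ?_, fun w i => ?_,
    fun k β p w i => ?_, fun W h ε => ?_⟩
  · rw [sh_iter_ptO, DD_ptO]
  · unfold RB rel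
    rw [Set.mem_ofPred_eq]
    have h1 : ∏ j, DD Q ((sh Q)^[p * β j] (ptO Q l n)) = ∏ i, lam (n + p * β i) :=
      Finset.prod_congr rfl fun j _ => by rw [sh_iter_ptO, DD_ptO]
    rw [h1]
  · have hc : Continuous fun ω : Om Q => (ω.2.2 (w, i)).1 := by fun_prop
    exact (isClopen_discrete ({true} : Set Bool)).preimage hc
  · have hc : Continuous fun ω : Om Q =>
        ((fun j : Fin k => ω.1 ((p * β j : ℕ) : ℤ), ω.2.1, ω.2.2 (w, i)) :
          (Fin k → Bool) × ZMod Q × Lb Q) := by fun_prop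
    have h1 : {ω : Om Q | (ω.2.2 (w, i)).1 = true ∧ ω.2.1 = (ω.2.2 (w, i)).2.1 ∧
        ω ∈ RB Q β p (ω.2.2 (w, i)).2.2} = (fun ω : Om Q =>
        ((fun j : Fin k => ω.1 ((p * β j : ℕ) : ℤ), ω.2.1, ω.2.2 (w, i)) :
          (Fin k → Bool) × ZMod Q × Lb Q)) ⁻¹'
        {z | z.2.2.1 = true ∧ z.2.1 = z.2.2.2.1 ∧ ∏ j, sg (z.1 j) ≠ sg z.2.2.2.2} := by
      ext ω
      have h2 : ∏ j, DD Q ((sh Q)^[p * β j] ω) = ∏ j, sg (ω.1 ((p * β j : ℕ) : ℤ)) :=
        Finset.prod_congr rfl fun j _ => DD_iter Q ω _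
      unfold RB
      rw [Set.mem_preimage, Set.mem_ofPred_eq, Set.mem_ofPred_eq, Set.mem_ofPred_eq, h2]
    rw [h1]
    exact (isClopen_discrete _).preimage hc
  · have hc : Continuous fun ω : Om Q => (fun y : Fin h => ω.1 ((W * (y : ℕ) : ℕ) : ℤ)) := by
      fun_prop
    have h1 : {ω : Om Q | ε ≤ |∑ y ∈ range h, DD Q ((sh Q)^[W * y] ω)|} =
        (fun ω : Om Q => (fun y : Fin h => ω.1 ((W * (y : ℕ) : ℕ) : ℤ))) ⁻¹'
        {z | ε ≤ |∑ y, sg (z y)|} := by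
      ext ω
      have h2 : ∑ y ∈ range h, DD Q ((sh Q)^[W * y] ω) =
          ∑ y : Fin h, sg (ω.1 ((W * (y : ℕ) : ℕ) : ℤ)) := by
        rw [Finset.sum_range]
        exact Finset.sum_congr rfl fun j _ => DD_iter Q ω _
      rw [Set.mem_preimage, Set.mem_ofPred_eq, Set.mem_ofPred_eq, h2]
    rw [h1]
    exact (isClopen_discrete _).preimage hc

end Pool.Agent.H61.AG
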